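import Mathlib
import Pool.Agent.N136.IS.Main

/-!
# The isomorphism problem for groups generated by finite automata is undecidable

Proof in short. Let `F` be a free group acting faithfully on `ℤ²` by matrices of determinant one and
let `E = ℤ² ⋊ F`. The group `E × E` acts on `ℤ⁴` by affine maps, hence on words over the alphabet
`{0,1}⁴` (the binary digits of vectors, starting with the last ones). The sections of an affine map
are affine maps with the same linear part, and for finitely many linear parts the vectors of a large
box give finitely many states. So for all finite sets of words in `F × F`, generating a subgroup
`H`, the group `ℤ⁴ ⋊ H` is the group of a finite automaton, which can be computed. From a word `w`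
in the generators of a finitely presented group with undecidable word problem one computes a finite
presentation of a group `Q` which is trivial if and only if `w = 1`. Let `H` be the fibre product of
two copies of `F → Q`; it is generated by finitely many words (Mikhailova). If `Q` is trivial, then
`H = F × F` and `ℤ⁴ ⋊ H = E × E`. If not, then `ℤ⁴ ⋊ H` is not generated by two nontrivial subgroups
which commute with each other, so it is not isomorphic to `E × E`.
-/

set_option autoImplicit false

namespace Pool.Agent.Results.MP_56d946_al.IsomorphismUndecidable

open Pool.Agent.N136.IS

/-- There is a finite invertible automaton `B` over an alphabet with 16 letters such that there is
no algorithm which decides for every finite invertible automaton `A` over the same alphabet, given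
by its tables, whether the groups of `A` and `B` are isomorphic. In particular there is no algorithm
which decides for two finite invertible automata whether their groups are isomorphic. -/
theorem result : ∃ B : Code, Valid B ∧ B.1 = 16 ∧ ¬ ∃ f : Code → Bool, Computable f ∧
    ∀ A : Code, Valid A → A.1 = 16 → (f A = true ↔ Nonempty (Grp A ≃* Grp B)) :=
  main

end Pool.Agent.Results.MP_56d946_al.IsomorphismUndecidable
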